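import Pool.Agent.Helper883.Dicut.HMain

set_option autoImplicit false

namespace Pool.Agent.Results.MP_ac065a_co.MultiWeighted

open Pool.Agent.Helper883.Dicut

/-- `h_μ(m) - m/4 = m^(3/5+o(1))` and `h_ω(t) - t/4 = t^(3/5+o(1))`, with explicit error terms. -/
theorem result :
    (∀ m : ℕ, 2 ≤ m →
      (m:ℝ) / 4 + 1 / 32 * (m:ℝ) ^ ((3:ℝ)/5) ≤ hMulti m ∧
      (hMulti m : ℝ) ≤ (m:ℝ) / 4 + (m:ℝ) ^ ((3:ℝ)/5) * Real.exp (80 * Real.sqrt (Real.log m))) ∧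
    (∀ t : ℝ, 2 ≤ t →
      t / 4 + 1 / 32 * t ^ ((3:ℝ)/5) ≤ hWeighted t ∧
      hWeighted t ≤ t / 4 + t ^ ((3:ℝ)/5) * Real.exp (81 * Real.sqrt (Real.log t))) :=
  ⟨hMulti_bounds, hWeighted_bounds⟩

end Pool.Agent.Results.MP_ac065a_co.MultiWeighted
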