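import Pool.Agent.Helper883.Dicut.HMain

set_option autoImplicit false

namespace Pool.Agent.Results.MP_ac065a_co.SimpleUpper

open Pool.Agent.Helper883.Dicut

/-- `h(m) ≤ m/4 + O(m^(5/7))`. -/
theorem result : ∃ C : ℝ, 0 < C ∧ ∀ m : ℕ, 1 ≤ m →
    (hSimple m : ℝ) ≤ (m:ℝ) / 4 + C * (m:ℝ) ^ ((5:ℝ)/7) :=
  hSimple_upper

end Pool.Agent.Results.MP_ac065a_co.SimpleUpper
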